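import Pool.Agent.Helper52.KP.StW

/-!
Project KP, module NUL: the zero set of a nonzero polynomial is a null set.
-/

set_option autoImplicit false

namespace Pool.Agent.Helper16.KP

open MeasureTheory Filter Pool.Agent.Helper52.KP
open scoped ContDiff ComplexOrder Topology

theorem hNUL : StNUL := by
  intro m
  induction m with
  | zero =>
    intro P hP
    have h1 : {z : Fin 0 → ℂ | ev P z = 0} = ∅ := by
      ext z
      simp only [Set.mem_ofPred_eq, Set.mem_empty_iff_false, iff_false]
      intro h
      apply hP
      have h2 := MvPolynomial.eq_C_of_isEmpty P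
      rw [h2] at h ⊢
      simp only [ev, MvPolynomial.eval_C] at h
      rw [h, map_zero]
    rw [h1, measure_empty]
  | succ m ih =>
    intro P hP
    obtain ⟨Q, hQ⟩ : ∃ Q, Q = MvPolynomial.finSuccEquiv ℂ m P := ⟨_, rfl⟩
    have hQ0 : Q ≠ 0 := by
      rw [hQ]
      intro h
      exact hP ((map_eq_zero_iff _ (MvPolynomial.finSuccEquiv ℂ m).injective).mp h)
    obtain ⟨i, hi⟩ : ∃ i, Q.coeff i ≠ 0 := by
      by_contra hcon
      push Not at hcon
      exact hQ0 (Polynomial.ext (by simpa using hcon))
    have hnull := ih (Q.coeff i) hi
    let e := MeasurableEquiv.piFinSuccAbove (fun _ : Fin (m + 1) => ℂ) 0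
    have he : MeasurePreserving e volume volume :=
      volume_preserving_piFinSuccAbove (fun _ : Fin (m + 1) => ℂ) 0
    let T : Set (ℂ × (Fin m → ℂ)) := {p | ev P (Fin.cons p.1 p.2) = 0}
    have hTm : MeasurableSet T := by
      have hc : Continuous (fun p : ℂ × (Fin m → ℂ) => ev P (Fin.cons p.1 p.2 : Fin (m + 1) → ℂ)) := by
        refine (MvPolynomial.continuous_eval P).comp ?_
        refine continuous_pi fun j => ?_
        refine Fin.cases ?_ (fun k => ?_) j
        · simpa using continuous_fst
        · simp only [Fin.cons_succ]
          exact (continuous_apply k).comp continuous_snd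
      exact (isClosed_singleton.preimage hc).measurableSet
    have hpre : {z : Fin (m + 1) → ℂ | ev P z = 0} = e ⁻¹' T := by
      ext z
      have h1 : (Fin.cons (e z).1 (e z).2 : Fin (m + 1) → ℂ) = z := by
        have : (e z) = (z 0, fun j => z (Fin.succ j)) := by
          rfl
        rw [this]
        exact Fin.cons_self_tail z
      simp only [Set.mem_ofPred_eq, Set.mem_preimage, T, h1]
    rw [hpre, he.measure_preimage_equiv]
    show (volume.prod volume) T = 0
    rw [Measure.prod_apply_symm hTm]
    rw [lintegral_eq_zero_iff' (measurable_measure_prodMk_right hTm).aemeasurable]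
    have hae : ∀ᵐ s : Fin m → ℂ, MvPolynomial.eval s (Q.coeff i) ≠ 0 := by
      rw [ae_iff]
      simpa using hnull
    filter_upwards [hae] with s hs
    have hfin : ((fun x : ℂ => (x, s)) ⁻¹' T) ⊆
        ((Q.map (MvPolynomial.eval s)).roots.toFinset : Set ℂ) := by
      intro y hy
      simp only [Set.mem_preimage, T, Set.mem_ofPred_eq] at hy
      simp only [Finset.mem_coe, Multiset.mem_toFinset]
      rw [Polynomial.mem_roots']
      refine ⟨?_, ?_⟩
      · intro h0
        apply hs
        have := congrArg (fun p => Polynomial.coeff p i) h0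
        simpa [Polynomial.coeff_map] using this
      · rw [Polynomial.IsRoot.def, hQ]
        rw [← MvPolynomial.eval_eq_eval_mv_eval']
        exact hy
    exact measure_mono_null hfin (Finset.measure_zero _ _)

end Pool.Agent.Helper16.KP
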