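import Pool.Agent.Helper52.KP.StG

/-! Project KP, module DEC: linear algebra of modules over sl2. -/

set_option autoImplicit false

namespace Pool.Agent.Helper16.KP

open Pool.Agent.Helper52.KP Polynomial

universe u

section

variable {V : Type u} [AddCommGroup V] [Module ℂ V]

/-- the relations of sl2 -/
private def Rel (E F H : Module.End ℂ V) : Prop :=
  H * E - E * H = (2 : ℂ) • E ∧ H * F - F * H = -((2 : ℂ) • F) ∧ E * F - F * E = H

private lemma rel_symm {E F H : Module.End ℂ V} (h : Rel E F H) : Rel F E (-H) := by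
  obtain ⟨h1, h2, h3⟩ := h
  refine ⟨?_, ?_, ?_⟩
  · have : -H * F - F * -H = -(H * F - F * H) := by noncomm_ring
    rw [this, h2, neg_neg]
  · have : -H * E - E * -H = -(H * E - E * H) := by noncomm_ring
    rw [this, h1]
  · rw [← h3]; noncomm_ring

/-- `F` is nilpotent -/
private lemma nilp [FiniteDimensional ℂ V] {E F H : Module.End ℂ V} (h : Rel E F H) :
    IsNilpotent F := by
  by_contra hF
  have hne : ∀ k : ℕ, F ^ k ≠ 0 := fun k hk => hF ⟨k, hk⟩
  have hk : ∀ k : ℕ, H * F ^ k - F ^ k * H = (-(2 * k : ℂ)) • F ^ k := by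
    intro k
    induction k with
    | zero => simp
    | succ k ih =>
      have e1 : H * F ^ (k + 1) - F ^ (k + 1) * H =
          (H * F ^ k - F ^ k * H) * F + F ^ k * (H * F - F * H) := by
        rw [pow_succ]; noncomm_ring
      rw [e1, ih, h.2.1, pow_succ, smul_mul_assoc, mul_neg, mul_smul_comm]
      push_cast
      module
  let D : Module.End ℂ (Module.End ℂ V) := LinearMap.mulLeft ℂ H - LinearMap.mulRight ℂ H
  have hD : ∀ k : ℕ, D.HasEigenvalue (-(2 * k : ℂ)) := by
    intro k
    refine Module.End.hasEigenvalue_of_hasEigenvector (x := F ^ k) ⟨?_, hne k⟩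
    rw [Module.End.mem_eigenspace_iff]
    exact hk k
  have hfin := Module.End.finite_hasEigenvalue D
  have hinj : Function.Injective (fun k : ℕ => (-(2 * k : ℂ))) := by
    intro a b hab
    have : (2 : ℂ) * a = 2 * b := neg_injective hab
    exact_mod_cast mul_left_cancel₀ two_ne_zero this
  exact (Set.infinite_range_of_injective hinj) (hfin.subset (by
    rintro _ ⟨k, rfl⟩
    exact hD k))

/-- polynomial with the roots `0, -1, ...` -/
private noncomputable def pp (N : ℕ) : ℂ[X] := ∏ i ∈ Finset.range N, (X + C (i : ℂ))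

private lemma step {E F H : Module.End ℂ V} (h : Rel E F H) (k : ℕ) (u : V) :
    F ((E ^ (k + 1)) u) = (E ^ (k + 1)) (F u) - ((k : ℂ) + 1) • (E ^ k) (H u + (k : ℂ) • u) := by
  have h1 : ∀ v, H (E v) = E (H v) + (2 : ℂ) • E v := by
    intro v
    have := LinearMap.congr_fun h.1 v
    simp only [LinearMap.sub_apply, Module.End.mul_apply, LinearMap.smul_apply] at this
    rw [← this]; abel
  have h3 : ∀ v, F (E v) = E (F v) - H v := by
    intro v
    have := LinearMap.congr_fun h.2.2 v
    simp only [LinearMap.sub_apply, Module.End.mul_apply] at this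
    rw [← this]; abel
  induction k generalizing u with
  | zero => simp [h3]
  | succ k ih =>
    have e1 : ∀ v, (E ^ (k + 1 + 1)) v = (E ^ (k + 1)) (E v) := fun v => by
      rw [pow_succ, Module.End.mul_apply]
    have e2 : ∀ v, (E ^ (k + 1)) v = (E ^ k) (E v) := fun v => by
      rw [pow_succ, Module.End.mul_apply]
    rw [e1, ih (E u), h3 u, h1 u, map_sub, e1 (F u)]
    have e3 : (E ^ k) (E (H u) + (2 : ℂ) • E u + (k : ℂ) • E u) =
        (E ^ (k + 1)) (H u) + ((k : ℂ) + 2) • (E ^ (k + 1)) u := by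
      rw [map_add, map_add, map_smul, map_smul, ← e2, ← e2]
      module
    rw [e3, map_add, map_smul]
    push_cast
    module

private lemma main {E F H : Module.End ℂ V} (h : Rel E F H) (k : ℕ) (u : V)
    (hu : E (F u) = 0) : ∃ c : ℂ, c ≠ 0 ∧ (F ^ k) ((E ^ k) u) = c • (aeval H (pp k)) u := by
  have h1 : ∀ v, H (E v) = E (H v) + (2 : ℂ) • E v := by
    intro v
    have := LinearMap.congr_fun h.1 v
    simp only [LinearMap.sub_apply, Module.End.mul_apply, LinearMap.smul_apply] at this
    rw [← this]; abel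
  have h2 : ∀ v, F (H v) = H (F v) + (2 : ℂ) • F v := by
    intro v
    have := LinearMap.congr_fun h.2.1 v
    simp only [LinearMap.sub_apply, Module.End.mul_apply, LinearMap.smul_apply,
      LinearMap.neg_apply] at this
    have h' : (2 : ℂ) • F v = F (H v) - H (F v) := by
      rw [← neg_inj, ← this]; abel
    rw [h']; abel
  induction k generalizing u with
  | zero => exact ⟨1, one_ne_zero, by simp [pp]⟩
  | succ k ih =>
    have hu' : E (F (H u + (k : ℂ) • u)) = 0 := by
      rw [map_add, map_smul, map_add, map_smul, hu, smul_zero, add_zero, h2, map_add, map_smul,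
        hu, smul_zero, add_zero]
      have := h1 (F u)
      rw [hu, map_zero, smul_zero, add_zero] at this
      exact this.symm
    obtain ⟨c, hc, hc'⟩ := ih (H u + (k : ℂ) • u) hu'
    refine ⟨-((k : ℂ) + 1) * c, mul_ne_zero (neg_ne_zero.2 (Nat.cast_add_one_ne_zero k)) hc, ?_⟩
    have e0 : (E ^ (k + 1)) (F u) = 0 := by
      rw [pow_succ, Module.End.mul_apply, hu, map_zero]
    have e1 : (F ^ (k + 1)) ((E ^ (k + 1)) u) = (F ^ k) (F ((E ^ (k + 1)) u)) := by
      rw [pow_succ, Module.End.mul_apply]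
    rw [e1, step h k u, e0, zero_sub, map_neg, map_smul, hc']
    have e2 : (aeval H (pp (k + 1))) u = (aeval H (pp k)) (H u + (k : ℂ) • u) := by
      rw [pp, Finset.prod_range_succ, ← pp, map_mul, Module.End.mul_apply]
      congr 1
      rw [map_add, aeval_X, aeval_C, LinearMap.add_apply, Module.algebraMap_end_apply]
    rw [e2, smul_smul, ← neg_smul, neg_mul]

private lemma main' {E F H : Module.End ℂ V} (h : Rel E F H) (N : ℕ) (hN : E ^ N = 0) (u : V)
    (hu : E (F u) = 0) : (aeval H (pp N)) u = 0 := by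
  obtain ⟨c, hc, h1⟩ := main h N u hu
  rw [hN, LinearMap.zero_apply, map_zero] at h1
  exact (smul_eq_zero.1 h1.symm).resolve_left hc

private lemma semi {E G G' : Module.End ℂ V} (h : E * G = G' * E) (p : ℂ[X]) :
    E * aeval G p = aeval G' p * E := by
  induction p using Polynomial.induction_on with
  | C a =>
    rw [aeval_C, aeval_C]
    exact (Algebra.commutes a E).symm
  | add p q hp hq => rw [map_add, map_add, mul_add, add_mul, hp, hq]
  | monomial n a ih =>
    have e : (C a * X ^ (n + 1) : ℂ[X]) = C a * X ^ n * X := by rw [pow_succ, mul_assoc]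
    have e1 : ∀ G : Module.End ℂ V, aeval G (C a * X ^ n * X : ℂ[X]) =
        aeval G (C a * X ^ n : ℂ[X]) * G := fun G => by rw [map_mul, aeval_X]
    rw [e, e1, e1, ← mul_assoc, ih, mul_assoc, h, mul_assoc]

private lemma cop (N M : ℕ) : IsCoprime (pp N) ((pp M).comp (C 2 - X)) := by
  have e : (pp M).comp (C 2 - X) = ∏ j ∈ Finset.range M, (C (2 : ℂ) - X + C (j : ℂ)) := by
    rw [pp, prod_comp]
    simp
  rw [e, pp]
  refine IsCoprime.prod_left fun i _ => IsCoprime.prod_right fun j _ => ?_
  have h0 : ((i : ℂ) + 2 + j) ≠ 0 := by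
    have : ((i + 2 + j : ℕ) : ℂ) ≠ 0 := by
      rw [Nat.cast_ne_zero]; omega
    push_cast at this
    exact this
  refine ⟨C ((i : ℂ) + 2 + j)⁻¹, C ((i : ℂ) + 2 + j)⁻¹, ?_⟩
  have : C ((i : ℂ) + 2 + j)⁻¹ * (X + C (i : ℂ)) +
      C ((i : ℂ) + 2 + j)⁻¹ * (C (2 : ℂ) - X + C (j : ℂ)) =
      C ((i : ℂ) + 2 + j)⁻¹ * (C (i : ℂ) + C 2 + C (j : ℂ)) := by ring
  rw [this, ← C_add, ← C_add, ← C_mul, inv_mul_cancel₀ h0, C_1]

private lemma disj {E F H : Module.End ℂ V} (h : Rel E F H) (hE : IsNilpotent E)
    (hF : IsNilpotent F) : Disjoint (LinearMap.range E) (LinearMap.ker F) := by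
  rw [Submodule.disjoint_def]
  rintro _ ⟨c, rfl⟩ hc
  rw [LinearMap.mem_ker] at hc
  obtain ⟨N, hN⟩ := hE
  obtain ⟨M, hM⟩ := hF
  have h1 : (aeval H (pp N)) (E c) = 0 := main' h N hN (E c) (by rw [hc, map_zero])
  have h2 : (aeval (-H) (pp M)) c = 0 := main' (rel_symm h) M hM c hc
  have h3 : E * (-H) = (algebraMap ℂ (Module.End ℂ V) 2 - H) * E := by
    have := h.1
    rw [sub_mul, ← Algebra.smul_def, ← this]
    noncomm_ring
  have h4 : (aeval H ((pp M).comp (C 2 - X))) (E c) = 0 := by
    rw [aeval_comp, map_sub, aeval_C, aeval_X]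
    have := LinearMap.congr_fun (semi h3 (pp M)) c
    rw [Module.End.mul_apply, Module.End.mul_apply, h2, map_zero] at this
    exact this.symm
  obtain ⟨a, b, hab⟩ := cop N M
  have h5 := congrArg (fun p => (aeval H p) (E c)) hab
  simp only [map_add, map_mul, LinearMap.add_apply, Module.End.mul_apply, h1, h4, map_zero,
    add_zero, map_one, Module.End.one_apply] at h5
  exact h5.symm

end

theorem hDEC : StDEC.{u} := by
  intro V _ _ _ E F H h1 h2 h3 hE
  have hR : Rel (V := V) E F H := by
    refine ⟨?_, ?_, ?_⟩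
    · ext v
      simpa [Module.End.mul_apply] using h1 v
    · ext v
      simpa [Module.End.mul_apply] using h2 v
    · ext v
      simpa [Module.End.mul_apply] using h3 v
  have hF : IsNilpotent F := nilp hR
  have d1 := disj hR hE hF
  have d2 := disj (rel_symm hR) hF hE
  have k1 := Submodule.finrank_add_finrank_le_of_disjoint d1
  have k2 := Submodule.finrank_add_finrank_le_of_disjoint d2
  have k3 := LinearMap.finrank_range_add_finrank_ker E
  have k4 := LinearMap.finrank_range_add_finrank_ker F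
  refine ⟨hF, ?_, ?_⟩
  · rw [Submodule.isCompl_iff_disjoint _ _ (by omega)]
    exact d1
  · intro v hv hv'
    obtain ⟨N, hN⟩ := hE
    have k5 : (aeval (R := ℂ) (A := Module.End ℂ V) H (pp N)) v = 0 :=
      main' hR N hN v (by rw [hv, map_zero])
    have k6 : (aeval (R := ℂ) (A := Module.End ℂ V) H (pp N)) v = (pp N).eval 2 • v := by
      by_cases h0 : v = 0
      · rw [h0, map_zero, smul_zero]
      · exact Module.End.aeval_apply_of_hasEigenvector
          ⟨Module.End.mem_eigenspace_iff.2 hv', h0⟩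
    rw [k6] at k5
    refine (smul_eq_zero.1 k5).resolve_left ?_
    rw [pp, eval_prod]
    refine Finset.prod_ne_zero_iff.2 ?_
    intro i _
    rw [eval_add, eval_X, eval_C]
    have : ((2 + i : ℕ) : ℂ) ≠ 0 := by
      rw [Nat.cast_ne_zero]; omega
    push_cast at this
    exact this

end Pool.Agent.Helper16.KP
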