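import Pool.Agent.Helper68.KP.StS

/-! Project KP, module EIG: orthonormal basis of eigenvectors. -/

set_option autoImplicit false

namespace Pool.Agent.Helper16.KP

open Pool.Agent.Helper52.KP Pool.Agent.Helper68.KP

theorem hEIG (hONB : StONB) : StEIG := by
  intro A _ _ E ip k hfd hF W hW
  obtain ⟨φ, hφ⟩ := hONB A E ip k hfd hF
  let ψ : E k ≃ₗ[ℂ] EuclideanSpace ℂ (Fin (Module.finrank ℂ (E k))) := φ.trans (WithLp.linearEquiv 2 ℂ (Fin (Module.finrank ℂ (E k)) → ℂ)).symm
  have hψ : ∀ f g : E k, ip f g = inner ℂ (ψ g) (ψ f) := by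
    intro f g
    rw [hφ f g, PiLp.inner_apply]
    refine Finset.sum_congr rfl fun i _ => ?_
    rw [RCLike.inner_apply]
    rfl
  let T : EuclideanSpace ℂ (Fin (Module.finrank ℂ (E k))) →ₗ[ℂ] EuclideanSpace ℂ (Fin (Module.finrank ℂ (E k))) :=
    ψ.toLinearMap ∘ₗ W k ∘ₗ ψ.symm.toLinearMap
  have hT' : ∀ x, T x = ψ (W k (ψ.symm x)) := fun x => rfl
  have hT : T.IsSymmetric := by
    intro x y
    have h1 := hψ (ψ.symm y) (W k (ψ.symm x))
    have h2 := hψ (W k (ψ.symm y)) (ψ.symm x)
    rw [LinearEquiv.apply_symm_apply] at h1 h2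
    rw [hT', hT', ← h1, ← h2]
    exact (hW k (ψ.symm y) (ψ.symm x)).symm
  have hn : Module.finrank ℂ (EuclideanSpace ℂ (Fin (Module.finrank ℂ (E k)))) = Module.finrank ℂ (E k) := by simp
  let b := hT.eigenvectorBasis hn
  let B : Module.Basis (Fin (Module.finrank ℂ (E k))) ℂ (E k) := b.toBasis.map ψ.symm
  have hB : ∀ j, B j = ψ.symm (b j) := fun j => by
    simp [B]
  have hψB : ∀ j, ψ (B j) = b j := fun j => by rw [hB, LinearEquiv.apply_symm_apply]
  have hWB : ∀ j, W k (B j) = ((hT.eigenvalues hn j : ℝ) : ℂ) • B j := by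
    intro j
    apply ψ.injective
    rw [map_smul, hψB]
    have h1 := hT.apply_eigenvectorBasis hn j
    rw [hT'] at h1
    rw [hB]
    exact h1
  refine ⟨fun j => B j, hT.eigenvalues hn, ?_, hWB, B.linearIndependent, B.span_eq, ?_⟩
  · intro i j
    rw [hψ, hψB, hψB, orthonormal_iff_ite.1 b.orthonormal j i]
    by_cases h : i = j
    · rw [if_pos h, if_pos h.symm]
    · rw [if_neg h, if_neg (fun h' => h h'.symm)]
  · intro y
    apply le_antisymm
    · unfold GW
      rw [Submodule.span_le]
      rintro _ ⟨e, x, hyx, he, rfl⟩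
      have hc : ∀ j, B.repr e j = 0 ∨ hT.eigenvalues hn j = x := by
        intro j
        have h1 : B.repr (W k e) j = B.repr e j * ((hT.eigenvalues hn j : ℝ) : ℂ) := by
          conv_lhs => rw [← B.sum_repr e]
          rw [map_sum, map_sum, Finsupp.finsetSum_apply, Finset.sum_eq_single j]
          · rw [map_smul, hWB, map_smul, map_smul, B.repr_self]
            simp
          · intro i _ hij
            rw [map_smul, hWB, map_smul, map_smul, B.repr_self]
            simp [hij]
          · intro h
            exact absurd (Finset.mem_univ j) h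
        rw [he, map_smul, Finsupp.smul_apply, smul_eq_mul, mul_comm] at h1
        rcases eq_or_ne (B.repr e j) 0 with h0 | h0
        · exact Or.inl h0
        · right
          have := mul_left_cancel₀ h0 h1
          exact_mod_cast this.symm
      have h2 : (e : A) = ∑ j, B.repr e j • (B j : A) := by
        have h3 := congrArg (fun z : E k => (z : A)) (B.sum_repr e)
        simp only [Submodule.coe_sum, Submodule.coe_smul] at h3
        exact h3.symm
      rw [SetLike.mem_coe, h2]
      refine Submodule.sum_mem _ fun j _ => ?_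
      rcases hc j with h0 | h0
      · rw [h0, zero_smul]
        exact Submodule.zero_mem _
      · refine Submodule.smul_mem _ _ (Submodule.subset_span ⟨j, ?_, rfl⟩)
        exact hyx.trans h0.ge
    · rw [Submodule.span_le]
      rintro _ ⟨j, hj, rfl⟩
      exact Submodule.subset_span ⟨B j, _, hj, hWB j, rfl⟩

end Pool.Agent.Helper16.KP
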