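import Pool.Agent.Helper20.KP.StH

/-! Project KP, module HNI: images of lower-dimensional spaces are null sets. -/

set_option autoImplicit false

namespace Pool.Agent.Helper16.KP

open Pool.Agent.Helper52.KP Pool.Agent.Helper20.KP MeasureTheory

theorem hHNI : StHNI := by
  intro q p hqp f hf
  let i₀ : Fin p := ⟨q, hqp⟩
  let F : (Fin p → ℂ) → (Fin p → ℂ) := fun x => f (fun i : Fin q => x (Fin.castLE hqp.le i))
  have hF : Differentiable ℂ F := hf.comp (differentiable_pi.2 fun i => differentiable_apply _)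
  let S : Submodule ℝ (Fin p → ℂ) :=
    LinearMap.ker (LinearMap.proj i₀ : (Fin p → ℂ) →ₗ[ℝ] ℂ)
  have hS : S ≠ ⊤ := by
    intro h
    have h1 : (Pi.single i₀ 1 : Fin p → ℂ) ∈ S := h ▸ Submodule.mem_top
    rw [LinearMap.mem_ker, LinearMap.proj_apply, Pi.single_eq_same] at h1
    exact one_ne_zero h1
  have hS0 : volume (S : Set (Fin p → ℂ)) = 0 := Measure.addHaar_submodule volume S hS
  have hr : Set.range f ⊆ F '' (S : Set (Fin p → ℂ)) := by
    rintro _ ⟨s, rfl⟩
    refine ⟨fun i => if h : (i : ℕ) < q then s ⟨i, h⟩ else 0, ?_, ?_⟩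
    · rw [SetLike.mem_coe, LinearMap.mem_ker, LinearMap.proj_apply]
      exact dif_neg (lt_irrefl q)
    · have h1 : (fun i : Fin q => (fun i : Fin p => if h : (i : ℕ) < q then s ⟨i, h⟩ else 0)
          (Fin.castLE hqp.le i)) = s := by
        funext i
        exact dif_pos i.2
      exact congrArg f h1
  refine measure_mono_null hr ?_
  exact addHaar_image_eq_zero_of_differentiableOn_of_addHaar_eq_zero volume
    (hF.restrictScalars ℝ).differentiableOn hS0

end Pool.Agent.Helper16.KP
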