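import Pool.Agent.Helper52.KP.StL

/-!
Project KP, module IBP: integration by parts.
-/

set_option autoImplicit false

namespace Pool.Agent.Helper16.KP

open MeasureTheory Filter Pool.Agent.Helper52.KP
open scoped ContDiff ComplexOrder Topology

private theorem ibp_dir (m : ℕ) (f g : (Fin m → ℂ) → ℂ) (hf : ContDiff ℝ 1 f)
    (hg : ContDiff ℝ 1 g) (hgs : HasCompactSupport g) (v : Fin m → ℂ) :
    Integrable (fun z => fderiv ℝ f z v * g z) ∧ Integrable (fun z => f z * fderiv ℝ g z v) ∧
    (∫ z, fderiv ℝ f z v * g z) = - ∫ z, f z * fderiv ℝ g z v := by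
  have hfd : Continuous (fun z => fderiv ℝ f z v) :=
    (hf.continuous_fderiv (by norm_num)).clm_apply continuous_const
  have hgd : Continuous (fun z => fderiv ℝ g z v) :=
    (hg.continuous_fderiv (by norm_num)).clm_apply continuous_const
  have hgds : HasCompactSupport (fun z => fderiv ℝ g z v) := by
    have h1 : HasCompactSupport (fderiv ℝ g) := hgs.fderiv ℝ
    exact h1.comp_left (g := fun L : (Fin m → ℂ) →L[ℝ] ℂ => L v) (by simp)
  have i1 : Integrable (fun z => fderiv ℝ f z v * g z) :=
    (hfd.mul hg.continuous).integrable_of_hasCompactSupport hgs.mul_left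
  have i2 : Integrable (fun z => f z * fderiv ℝ g z v) :=
    (hf.continuous.mul hgd).integrable_of_hasCompactSupport hgds.mul_left
  have i3 : Integrable (fun z => f z * g z) :=
    (hf.continuous.mul hg.continuous).integrable_of_hasCompactSupport hgs.mul_left
  refine ⟨i1, i2, ?_⟩
  have h := integral_mul_fderiv_eq_neg_fderiv_mul_of_integrable (μ := volume) i1 i2 i3
    (fun x _ => (hf.differentiable (by norm_num)) x)
    (fun x _ => (hg.differentiable (by norm_num)) x)
  rw [h, neg_neg]

theorem hIBP : StIBP := by
  intro m j f g hf hg hgs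
  obtain ⟨a1, a2, a3⟩ := ibp_dir m f g hf hg hgs (Pi.single j 1)
  obtain ⟨b1, b2, b3⟩ := ibp_dir m f g hf hg hgs (Pi.single j Complex.I)
  constructor
  · have e1 : ∀ z, dz j f z * g z = (1 / 2 : ℂ) * (fderiv ℝ f z (Pi.single j 1) * g z)
        - Complex.I / 2 * (fderiv ℝ f z (Pi.single j Complex.I) * g z) := by
      intro z
      unfold dz
      ring
    have e2 : ∀ z, f z * dz j g z = (1 / 2 : ℂ) * (f z * fderiv ℝ g z (Pi.single j 1))
        - Complex.I / 2 * (f z * fderiv ℝ g z (Pi.single j Complex.I)) := by
      intro z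
      unfold dz
      ring
    simp_rw [e1, e2]
    rw [integral_sub (a1.const_mul _) (b1.const_mul _),
      integral_sub (a2.const_mul _) (b2.const_mul _),
      integral_const_mul, integral_const_mul, integral_const_mul, integral_const_mul, a3, b3]
    ring
  · have e1 : ∀ z, db j f z * g z = (1 / 2 : ℂ) * (fderiv ℝ f z (Pi.single j 1) * g z)
        + Complex.I / 2 * (fderiv ℝ f z (Pi.single j Complex.I) * g z) := by
      intro z
      unfold db
      ring
    have e2 : ∀ z, f z * db j g z = (1 / 2 : ℂ) * (f z * fderiv ℝ g z (Pi.single j 1))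
        + Complex.I / 2 * (f z * fderiv ℝ g z (Pi.single j Complex.I)) := by
      intro z
      unfold db
      ring
    simp_rw [e1, e2]
    rw [integral_add (a1.const_mul _) (b1.const_mul _),
      integral_add (a2.const_mul _) (b2.const_mul _),
      integral_const_mul, integral_const_mul, integral_const_mul, integral_const_mul, a3, b3]
    ring

end Pool.Agent.Helper16.KP
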